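import Pool.Agent.R165.WL.Cx

/-!
# MP_332aa0_an: modulus condition and weak-`L_p` convergence of Walsh logarithmic means

The martingales of Q1 do not exist, for any `0 < p ≤ 1`. For `p = 1` no modulus condition is needed;
for `p < 1` the condition `ω(1/2^n, f) = o(n/2^{n(1/p-1)})` already gives strong convergence, and
`O` instead of `o` is not enough, even for weak convergence.
-/

namespace Pool.Agent.Results.MP_332aa0_an.NorlundLogModulus

open MeasureTheory Filter Topology Pool.Agent.R243.WN Pool.Agent.R165.WL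
open scoped ENNReal NNReal

theorem result :
    -- Q1, negated form
    (∀ p : ℝ, 0 < p → p ≤ 1 → ∀ f : ℕ → G → ℝ, Martingale f F mu → hpNorm p f < ⊤ →
      (∃ C : ℝ, ∀ᶠ n : ℕ in atTop, modulus p f n ≤ ENNReal.ofReal (C * (Real.log n /
        ((2 : ℝ) ^ ((n : ℝ) * (1 / p - 1)) * Real.log n ^ (2 * ⌊p⌋₊))))) →
      ∃ g : G → ℝ, Measurable g ∧ (∀ᵐ x ∂mu, Tendsto (fun n => f n x) atTop (𝓝 (g x))) ∧
        Tendsto (fun k => wkNorm p (fun x => L f k x - g x)) atTop (𝓝 0)) ∧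
    -- `p = 1`: weak convergence on all of `H_1`
    (∀ f : ℕ → G → ℝ, Martingale f F mu → hpNorm 1 f < ⊤ →
      ∃ g : G → ℝ, Measurable g ∧ (∀ᵐ x ∂mu, Tendsto (fun n => f n x) atTop (𝓝 (g x))) ∧
        Tendsto (fun k => wkNorm 1 (fun x => L f k x - g x)) atTop (𝓝 0)) ∧
    -- `p < 1`: a weaker modulus condition gives strong convergence
    (∀ p : ℝ, 0 < p → p < 1 → ∀ f : ℕ → G → ℝ, Martingale f F mu → hpNorm p f < ⊤ →
      (∀ ε : ℝ, 0 < ε → ∀ᶠ n : ℕ in atTop, modulus p f n ≤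
        ENNReal.ofReal (ε * ((n : ℝ) / (2 : ℝ) ^ ((n : ℝ) * (1 / p - 1))))) →
      ∃ g : G → ℝ, Measurable g ∧ (∀ᵐ x ∂mu, Tendsto (fun n => f n x) atTop (𝓝 (g x))) ∧
        Tendsto (fun k => pNorm p (fun x => L f k x - g x)) atTop (𝓝 0)) ∧
    -- sharpness for `p < 1`
    (∀ p : ℝ, 0 < p → p < 1 → ∃ f : ℕ → G → ℝ, Martingale f F mu ∧ hpNorm p f < ⊤ ∧
      (∃ C : ℝ, ∀ᶠ n : ℕ in atTop, modulus p f n ≤
        ENNReal.ofReal (C * ((n : ℝ) / (2 : ℝ) ^ ((n : ℝ) * (1 / p - 1))))) ∧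
      ∃ g : G → ℝ, Measurable g ∧ (∀ᵐ x ∂mu, Tendsto (fun n => f n x) atTop (𝓝 (g x))) ∧
        ¬ Tendsto (fun k => wkNorm p (fun x => L f k x - g x)) atTop (𝓝 0)) := by
  refine ⟨fun p hp0 hp1 f hf hH hω => main_Q1 hp0 hp1 hf hH hω, fun f hf hH => main_one hf hH,
    fun p hp0 hp1 f hf hH hω => ?_, fun p hp0 hp1 => main_sharp hp0 hp1⟩
  obtain ⟨g, h1, h2, h3, -⟩ := main_small hp0 hp1 hf hH hω
  exact ⟨g, h1, h2, h3⟩

end Pool.Agent.Results.MP_332aa0_an.NorlundLogModulus
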